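import Pool.Agent.KS6_67.Sat.RegB2

set_option autoImplicit false

namespace Pool.Agent.Results.MP_02ddb6_co.MidRange

open Pool.Agent.KS6_67.Sat

/-- `sat(n,k,l) = Θ(n^l)` for all `2 ≤ l ≤ k - 2`: for all large `n` divisible by `k - l` there is
an `l`-Hamiltonian saturated `k`-graph with at most `C n^l` edges, and every such `k`-graph has at
least `c n^l` edges. -/
theorem result :
    ∀ k l : ℕ, 2 ≤ l → l + 2 ≤ k →
      ∃ c C : ℝ, 0 < c ∧ 0 < C ∧ ∃ N : ℕ, ∀ n : ℕ, N ≤ n → (k - l) ∣ n →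
        (∃ H : Finset (Finset (Fin n)), Satd n k (k - l) H ∧ (H.card : ℝ) ≤ C * (n : ℝ) ^ l) ∧
        (∀ H : Finset (Finset (Fin n)), Satd n k (k - l) H →
          c * (n : ℝ) ^ l ≤ (H.card : ℝ)) := by
  intro k l hl hk
  exact final (by omega) (by omega) (good_mid hl hk)

end Pool.Agent.Results.MP_02ddb6_co.MidRange
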